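import Pool.Agent.H961.T3.Stm5
import Pool.Graph.R_pool_sql_team_seeded_3997aac3.Q295.PL.All
import Pool.Graph.R_pool_sql_team_seeded_3997aac3.Q277.LC.Sub
import Pool.Graph.R_pool_sql_team_seeded_3997aac3.Q154.LC.Gdm

/-!
# Project MS: good environments, all dimensions `d ≥ 2` (helper357 for helper961)
-/

set_option autoImplicit false

namespace Pool.Agent.H357.MS.Cip

open Finset Equiv Matrix Q292.LC Pool.Agent.H961.T2 Pool.Agent.H961.T3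
open Pool.Agent.Q297.LC (pow_exp)

/-- the failure probability in BTT, any power -/
lemma fail_pow {d p C₁ D L K Z r : ℕ} {κ : ℝ} (hd : 1 ≤ d) (hC₁ : 1 ≤ C₁) (hL : 1 ≤ L)
    (hZ : 100 * d * (p + 4) * C₁ * Real.log L ≤ Z) (hD1 : 1 ≤ D)
    (hD : 100 * ((p + 4) * (d * Real.log L)) * D ≤ Z) (hlog : 5 * (C₁ : ℝ) + 1 ≤ Real.log L)
    (hK : K ≤ L ^ d)
    (hr : (Z + 1) * (2 * r + 1) ^ d ≤ L ^ (2 * d)) (hκ0 : 0 ≤ κ)
    (hκ : ((2 * r + 1 : ℕ) : ℝ) ^ d * ((Z + 2) * κ) ≤ Real.exp (-1)) :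
    C₁ * ((L : ℝ) ^ (2 * d) * Real.exp (-(Z : ℝ)) + (L : ℝ) ^ (2 * d) * (1 / 2) ^ ((Z - 1) / 2 / D)) +
      K * (L : ℝ) ^ (2 * d) * (Z + 1) * ((2 * r + 1 : ℕ) : ℝ) ^ d *
        (((2 * r + 1 : ℕ) : ℝ) ^ d * ((Z + 2) * κ)) ^ Z ≤ 1 / ((L : ℝ) ^ d) ^ p := by
  obtain ⟨ℓ, hℓ⟩ : ∃ ℓ : ℝ, ℓ = Real.log L := ⟨_, rfl⟩
  rw [← hℓ] at hZ hlog hD
  have hd' : (1 : ℝ) ≤ d := by exact_mod_cast hd
  have hC' : (1 : ℝ) ≤ C₁ := by exact_mod_cast hC₁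
  have hℓ0 : 0 ≤ ℓ := by linarith
  obtain ⟨X, hX⟩ : ∃ X : ℝ, X = d * ℓ := ⟨_, rfl⟩
  have hXℓ : ℓ ≤ X := by rw [hX]; nlinarith
  have hX0 : 0 ≤ X := by linarith
  have hp0 : (0 : ℝ) ≤ p := Nat.cast_nonneg _
  have hpX : 0 ≤ (p : ℝ) * X := by positivity
  obtain ⟨T, hT⟩ : ∃ T : ℝ, T = Real.exp (-(p * X) - ℓ) := ⟨_, rfl⟩
  have hT0 : 0 < T := by rw [hT]; positivity
  have e2d : (L : ℝ) ^ (2 * d) = Real.exp (2 * X) := by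
    rw [pow_exp hL, ← hℓ, hX]; push_cast; ring_nf
  have ed : (L : ℝ) ^ d = Real.exp X := by rw [pow_exp hL, ← hℓ, hX]
  have einv : 1 / ((L : ℝ) ^ d) ^ p = Real.exp (-(p * X)) := by
    rw [ed, ← Real.exp_nat_mul, Real.exp_neg, one_div]
  have hZX : 100 * (p + 4) * C₁ * X ≤ Z := by
    refine le_trans (le_of_eq ?_) hZ
    rw [hX]
    ring
  have hZ5 : 100 * ((p + 4) * X) ≤ Z := by
    refine le_trans ?_ hZX
    have h1 : 0 ≤ 100 * ((p : ℝ) + 4) * X := by positivity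
    calc 100 * (((p : ℝ) + 4) * X) = 100 * ((p : ℝ) + 4) * X * 1 := by ring
      _ ≤ 100 * ((p : ℝ) + 4) * X * C₁ := mul_le_mul_of_nonneg_left hC' h1
      _ = _ := by ring
  -- first term
  have t1 : (L : ℝ) ^ (2 * d) * Real.exp (-(Z : ℝ)) ≤ T := by
    rw [e2d, hT, ← Real.exp_add, Real.exp_le_exp]
    nlinarith
  -- second term
  have t2 : (L : ℝ) ^ (2 * d) * (1 / 2) ^ ((Z - 1) / 2 / D) ≤ 4 * T := by
    obtain ⟨n, hn⟩ : ∃ n : ℕ, n = (Z - 1) / 2 / D := ⟨_, rfl⟩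
    rw [← hn]
    have hDpos : 0 < D := hD1
    have hD' : (1 : ℝ) ≤ D := by exact_mod_cast hD1
    have n1 : (Z - 1) / 2 < D * n + D := by
      have e1 := Nat.div_add_mod ((Z - 1) / 2) D
      have e2 := Nat.mod_lt ((Z - 1) / 2) hDpos
      rw [← hn] at e1
      omega
    have n2 : Z ≤ 2 * (D * n) + 2 * D + 1 := by omega
    have n3 : (Z : ℝ) ≤ 2 * (D * n) + 2 * D + 1 := by exact_mod_cast n2
    have n4 : (Z : ℝ) / (2 * D) - 2 ≤ n := by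
      rw [sub_le_iff_le_add, div_le_iff₀ (by positivity)]
      nlinarith
    have n5 : 50 * ((p + 4) * X) ≤ (Z : ℝ) / (2 * D) := by
      rw [le_div_iff₀ (by positivity)]
      refine le_trans (le_of_eq ?_) hD
      rw [hX]
      ring
    have l2 := Real.log_two_gt_d9
    have l2' := Real.log_two_lt_d9
    have e1 : ((1 : ℝ) / 2) ^ n = Real.exp (-(n * Real.log 2)) := by
      rw [one_div, inv_pow, Real.exp_neg, ← Real.log_pow, Real.exp_log (by positivity)]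
    have e4 : (4 : ℝ) = Real.exp (2 * Real.log 2) := by
      rw [show (2 : ℝ) * Real.log 2 = ((2 : ℕ) : ℝ) * Real.log 2 by norm_num, ← Real.log_pow,
        Real.exp_log (by positivity)]
      norm_num
    rw [e1, e4, e2d, hT, ← Real.exp_add, ← Real.exp_add, Real.exp_le_exp]
    have n6 : (50 * ((p + 4) * X) - 2) * Real.log 2 ≤ n * Real.log 2 :=
      mul_le_mul_of_nonneg_right (by linarith) (by linarith)
    have n7 : 0 ≤ ((p : ℝ) + 4) * X := by positivity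
    have n8 : 25 * (((p : ℝ) + 4) * X) ≤ 50 * ((p + 4) * X) * Real.log 2 := by nlinarith
    nlinarith
  -- third term
  have t3 : K * (L : ℝ) ^ (2 * d) * (Z + 1) * ((2 * r + 1 : ℕ) : ℝ) ^ d *
        (((2 * r + 1 : ℕ) : ℝ) ^ d * ((Z + 2) * κ)) ^ Z ≤ T := by
    have k1 : (K : ℝ) ≤ Real.exp X := by rw [← ed]; exact_mod_cast hK
    have k2 : ((Z : ℝ) + 1) * ((2 * r + 1 : ℕ) : ℝ) ^ d ≤ Real.exp (2 * X) := by
      rw [← e2d]; exact_mod_cast hr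
    have k3 : (((2 * r + 1 : ℕ) : ℝ) ^ d * ((Z + 2) * κ)) ^ Z ≤ Real.exp (-(Z : ℝ)) := by
      have h1 := pow_le_pow_left₀ (by positivity) hκ Z
      refine h1.trans (le_of_eq ?_)
      rw [← Real.exp_nat_mul]
      congr 1
      ring
    have k4 : K * (L : ℝ) ^ (2 * d) * (Z + 1) * ((2 * r + 1 : ℕ) : ℝ) ^ d *
        (((2 * r + 1 : ℕ) : ℝ) ^ d * ((Z + 2) * κ)) ^ Z =
        K * (L : ℝ) ^ (2 * d) * ((Z + 1) * ((2 * r + 1 : ℕ) : ℝ) ^ d) *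
        (((2 * r + 1 : ℕ) : ℝ) ^ d * ((Z + 2) * κ)) ^ Z := by ring
    rw [k4, e2d]
    calc K * Real.exp (2 * X) * ((Z + 1) * ((2 * r + 1 : ℕ) : ℝ) ^ d) *
        (((2 * r + 1 : ℕ) : ℝ) ^ d * ((Z + 2) * κ)) ^ Z
        ≤ Real.exp X * Real.exp (2 * X) * Real.exp (2 * X) * Real.exp (-(Z : ℝ)) := by
          gcongr
      _ = Real.exp (5 * X - Z) := by
          rw [← Real.exp_add, ← Real.exp_add, ← Real.exp_add]
          congr 1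
          ring
      _ ≤ T := by
          rw [hT, Real.exp_le_exp]
          nlinarith
  have hfin : (5 * (C₁ : ℝ) + 1) * T ≤ 1 / ((L : ℝ) ^ d) ^ p := by
    rw [einv]
    have h1 : 5 * (C₁ : ℝ) + 1 ≤ Real.exp ℓ := by
      have := Real.add_one_le_exp ℓ
      linarith
    calc (5 * (C₁ : ℝ) + 1) * T ≤ Real.exp ℓ * T := mul_le_mul_of_nonneg_right h1 hT0.le
      _ = Real.exp (-(p * X)) := by
          rw [hT, ← Real.exp_add]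
          congr 1
          ring
  refine le_trans ?_ hfin
  nlinarith

theorem params_cip (d C₁ C₃ m₁ mm : ℕ) (hd : 2 ≤ d) (hC₁ : 1 ≤ C₁) (hmm : m₁ + 2 ≤ mm) :
    ∃ m : ℕ, mm ≤ m ∧
    ∀ p : ℕ, ∃ T : ℕ,
    ∀ (L K : ℕ) [NeZero L], T ≤ K → K ≤ L ^ d → (Real.log L) ^ m ≤ K → ∃ Z : ℕ,
      C₁ + C₃ ≤ Z ∧ 3 ≤ Z ∧ (L : ℝ) ^ d ≤ Real.exp Z ∧ 8 * Z ^ mm ≤ L ∧ Z ^ mm ≤ K ∧ 3 ≤ L ∧
      (Z : ℝ) ^ mm ≤ (Real.log L) ^ m ∧ 1 ≤ K ∧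
      ∀ w : ℝ, 0 ≤ w → w < 1 → (Real.log L) ^ m ≤ (L : ℝ) ^ d * (1 - w) →
      ∀ κ : ℝ, κ = (Z : ℝ) ^ m₁ * ((1 + Real.log (1 / (1 - w))) / K + 1 / ((L : ℝ) ^ d * (1 - w))) →
      ((Z : ℝ) + 2) * κ ≤ 1 ∧
      C₁ * ((L : ℝ) ^ (2 * d) * Real.exp (-(Z : ℝ)) +
        (L : ℝ) ^ (2 * d) * (1 / 2) ^ ((Z - 1) / 2 / (C₁ * (1 + Nat.log 2 K)))) +
      K * (L : ℝ) ^ (2 * d) * (Z + 1) * ((2 * Z ^ mm + 1 : ℕ) : ℝ) ^ d *
        (((2 * Z ^ mm + 1 : ℕ) : ℝ) ^ d * ((Z + 2) * κ)) ^ Z ≤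
        1 / ((L : ℝ) ^ d) ^ p := by
  obtain ⟨m, hm⟩ : ∃ m : ℕ, m = 3 * d * mm + 3 * mm + 6 := ⟨_, rfl⟩
  refine ⟨m, by omega, fun p => ?_⟩
  obtain ⟨C₂, hC₂⟩ : ∃ C₂ : ℕ, C₂ = 200 * d ^ 2 * (p + 4) * C₁ := ⟨_, rfl⟩
  obtain ⟨Λ₀, hΛ₀⟩ : ∃ Λ₀ : ℕ, Λ₀ = 2 * C₂ + C₃ + d + 9 * 3 ^ d + 5 * C₁ +
    8 * (3 * mm + 1).factorial + 10 := ⟨_, rfl⟩
  obtain ⟨M, hM⟩ : ∃ M : ℕ, M = ⌈Real.exp (d * (Λ₀ : ℝ))⌉₊ := ⟨_, rfl⟩
  refine ⟨M + 1, ?_⟩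
  intro L K _ hmK hKL hlogK
  have hLpos : 1 ≤ L := Nat.pos_of_ne_zero (NeZero.ne L)
  have hLr : (0 : ℝ) < L := by exact_mod_cast hLpos
  have hC₁' : (1 : ℝ) ≤ C₁ := by exact_mod_cast hC₁
  have hd' : (2 : ℝ) ≤ d := by exact_mod_cast hd
  have hKpos : 1 ≤ K := by omega
  have hKr : (1 : ℝ) ≤ K := by exact_mod_cast hKpos
  obtain ⟨ℓ, hℓ⟩ : ∃ ℓ : ℝ, ℓ = Real.log L := ⟨_, rfl⟩
  have hexpℓ : Real.exp ℓ = L := by rw [hℓ, Real.exp_log hLr]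
  -- the logarithm is large
  have hℓΛ : (Λ₀ : ℝ) ≤ ℓ := by
    have h1 : Real.exp (d * (Λ₀ : ℝ)) ≤ (L : ℝ) ^ d := by
      have h2 : Real.exp (d * (Λ₀ : ℝ)) ≤ M := by rw [hM]; exact Nat.le_ceil _
      have h3 : (M : ℝ) ≤ K := by exact_mod_cast (by omega : M ≤ K)
      have h4 : (K : ℝ) ≤ (L : ℝ) ^ d := by exact_mod_cast hKL
      linarith
    rw [pow_exp hLpos, Real.exp_le_exp, ← hℓ] at h1
    have : (0 : ℝ) < d := by linarith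
    exact le_of_mul_le_mul_left h1 this
  have hΛr : (Λ₀ : ℝ) = 2 * C₂ + C₃ + d + 9 * 3 ^ d + 5 * C₁ +
      8 * ((3 * mm + 1).factorial : ℝ) + 10 := by
    rw [hΛ₀]; push_cast; ring
  have hC₂0 : (0 : ℝ) ≤ C₂ := Nat.cast_nonneg _
  have hC₃0 : (0 : ℝ) ≤ C₃ := Nat.cast_nonneg _
  have p3d : (0 : ℝ) ≤ 3 ^ d := by positivity
  have hfac0 : (0 : ℝ) ≤ ((3 * mm + 1).factorial : ℝ) := Nat.cast_nonneg _
  have hb1 : 2 * (C₂ : ℝ) + 1 ≤ ℓ := by linarith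
  have hb2 : 5 * (C₁ : ℝ) + 1 ≤ ℓ := by linarith
  have hb3 : (C₁ : ℝ) + C₃ ≤ ℓ := by linarith
  have hb4 : 9 * 3 ^ d ≤ ℓ := by linarith
  have hb5 : 8 * ((3 * mm + 1).factorial : ℝ) ≤ ℓ := by linarith
  have hb6 : (10 : ℝ) ≤ ℓ := by linarith
  have hb7 : (d : ℝ) + 2 ≤ ℓ := by linarith
  have hℓ1 : 1 ≤ ℓ := by linarith
  have hC₂1 : (1 : ℝ) ≤ C₂ := by
    have : 1 ≤ C₂ := by
      rw [hC₂]
      exact Nat.mul_pos (Nat.mul_pos (Nat.mul_pos (by norm_num) (pow_pos (by omega) 2))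
        (by omega)) hC₁
    exact_mod_cast this
  have hC₂r : (C₂ : ℝ) = 200 * d ^ 2 * (p + 4) * C₁ := by rw [hC₂]; push_cast; ring
  -- the number Z
  obtain ⟨Z, hZ⟩ : ∃ Z : ℕ, Z = ⌈(C₂ : ℝ) * ℓ ^ 2⌉₊ := ⟨_, rfl⟩
  have hZ1 : (C₂ : ℝ) * ℓ ^ 2 ≤ Z := by rw [hZ]; exact Nat.le_ceil _
  have hZ2 : (Z : ℝ) < C₂ * ℓ ^ 2 + 1 := by
    rw [hZ]
    exact Nat.ceil_lt_add_one (by positivity)
  have hℓsq : ℓ ≤ ℓ ^ 2 := by nlinarith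
  have hZℓ : ℓ ≤ Z := by
    have h1 : 1 * ℓ ^ 2 ≤ (C₂ : ℝ) * ℓ ^ 2 := mul_le_mul_of_nonneg_right hC₂1 (by positivity)
    linarith
  have hZcu : (Z : ℝ) ≤ ℓ ^ 3 := by
    have h4 : (C₂ : ℝ) * ℓ ^ 2 ≤ (ℓ - 1) * ℓ ^ 2 :=
      mul_le_mul_of_nonneg_right (by linarith) (by positivity)
    have h5 : (ℓ - 1) * ℓ ^ 2 = ℓ ^ 3 - ℓ ^ 2 := by ring
    have h6 : 1 ≤ ℓ ^ 2 := one_le_pow₀ hℓ1
    linarith
  have hZ3 : 3 ≤ Z := by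
    have : (3 : ℝ) ≤ Z := by linarith
    exact_mod_cast this
  have hZpos : 1 ≤ Z := by omega
  have hZr : (1 : ℝ) ≤ Z := by exact_mod_cast hZpos
  have hC13 : C₁ + C₃ ≤ Z := by
    have : (C₁ : ℝ) + C₃ ≤ Z := by linarith
    exact_mod_cast this
  have hZm : ∀ a : ℕ, (Z : ℝ) ^ a ≤ ℓ ^ (3 * a) := by
    intro a
    rw [pow_mul]
    exact pow_le_pow_left₀ (by linarith) hZcu a
  have hℓK : ∀ a : ℕ, a ≤ m → ℓ ^ a ≤ K := by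
    intro a ha
    rw [hℓ] at hℓ1 ⊢
    exact (pow_le_pow_right₀ hℓ1 ha).trans hlogK
  have hZK : Z ^ mm ≤ K := by
    have : (Z : ℝ) ^ mm ≤ K := (hZm mm).trans (hℓK _ (by omega))
    exact_mod_cast this
  have hZL' : 8 * (Z : ℝ) ^ mm ≤ L := by
    have h1 := Real.pow_div_factorial_le_exp ℓ (by linarith) (3 * mm + 1)
    rw [hexpℓ, div_le_iff₀ (by positivity)] at h1
    have hf : (0 : ℝ) < ((3 * mm + 1).factorial : ℝ) := by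
      exact_mod_cast Nat.factorial_pos _
    have h2 : 8 * (Z : ℝ) ^ mm * ((3 * mm + 1).factorial : ℝ) ≤
        L * ((3 * mm + 1).factorial : ℝ) := by
      refine le_trans ?_ h1
      calc 8 * (Z : ℝ) ^ mm * ((3 * mm + 1).factorial : ℝ)
          ≤ 8 * ℓ ^ (3 * mm) * ((3 * mm + 1).factorial : ℝ) := by
            have := hZm mm
            gcongr
        _ = ℓ ^ (3 * mm) * (8 * ((3 * mm + 1).factorial : ℝ)) := by ring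
        _ ≤ ℓ ^ (3 * mm) * ℓ := by gcongr
        _ = ℓ ^ (3 * mm + 1) := by rw [pow_succ]
    exact le_of_mul_le_mul_right h2 hf
  have hZL : 8 * Z ^ mm ≤ L := by exact_mod_cast hZL'
  have hZmm : Z ≤ Z ^ mm := by
    calc Z = Z ^ 1 := (pow_one Z).symm
      _ ≤ Z ^ mm := Nat.pow_le_pow_right hZpos (by omega)
  have hL3 : 3 ≤ L := by omega
  have hX0 : 0 ≤ (d : ℝ) * ℓ := by positivity
  have hX1 : 20 ≤ (d : ℝ) * ℓ := by nlinarith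
  have hp0 : (0 : ℝ) ≤ p := Nat.cast_nonneg _
  -- lower bounds for Z
  have hZX : 200 * ((p + 4) * (d * ℓ) ^ 2) * C₁ ≤ Z := by
    refine le_trans (le_of_eq ?_) hZ1
    rw [hC₂r]
    ring
  have hZX1 : 100 * d * (p + 4) * C₁ * ℓ ≤ Z := by
    refine le_trans ?_ hZX
    have h1 : (d : ℝ) * ℓ ≤ (d * ℓ) ^ 2 := by nlinarith
    have h2 : 0 ≤ 100 * ((p : ℝ) + 4) * C₁ := by positivity
    have h3 := mul_le_mul_of_nonneg_left h1 h2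
    have h4 : 0 ≤ 100 * ((p : ℝ) + 4) * C₁ * (d * ℓ) ^ 2 := by positivity
    calc 100 * d * (p + 4) * C₁ * ℓ = 100 * ((p : ℝ) + 4) * C₁ * (d * ℓ) := by ring
      _ ≤ 100 * ((p : ℝ) + 4) * C₁ * (d * ℓ) ^ 2 := h3
      _ ≤ 200 * ((p + 4) * (d * ℓ) ^ 2) * C₁ := by linarith
  have hdZ : (d : ℝ) * ℓ ≤ Z := by
    refine le_trans ?_ hZX1
    have h1 : (1 : ℝ) ≤ 100 * ((p : ℝ) + 4) * C₁ := by nlinarith
    have h2 := mul_le_mul_of_nonneg_right h1 hX0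
    linarith
  have hLZ : (L : ℝ) ^ d ≤ Real.exp Z := by
    rw [pow_exp hLpos, Real.exp_le_exp, ← hℓ]
    exact hdZ
  refine ⟨Z, hC13, hZ3, hLZ, hZL, hZK, hL3, ?_, hKpos, ?_⟩
  · rw [← hℓ]
    exact (hZm mm).trans (pow_le_pow_right₀ hℓ1 (by omega))
  intro w hw0 hw1 hwm κ hκ
  rw [← hℓ] at hwm hlogK
  obtain ⟨r, hr⟩ : ∃ r : ℕ, r = Z ^ mm := ⟨_, rfl⟩
  rw [← hr] at hZL hZmm ⊢
  have hr1 : 1 ≤ r := by rw [hr]; exact Nat.one_le_pow _ _ hZpos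
  have h1w : 0 < 1 - w := by linarith
  have hLd : (0 : ℝ) < (L : ℝ) ^ d := by positivity
  have hℓm : 0 < ℓ ^ m := by positivity
  have hℓm1 : 1 ≤ ℓ ^ m := one_le_pow₀ hℓ1
  have hlog0 : 0 ≤ Real.log (1 / (1 - w)) := by
    apply Real.log_nonneg
    rw [le_div_iff₀ h1w]
    linarith
  have hlog1 : Real.log (1 / (1 - w)) ≤ d * ℓ := by
    have h1 : 1 / (1 - w) ≤ (L : ℝ) ^ d := by
      rw [div_le_iff₀ h1w]
      linarith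
    have h2 := Real.log_le_log (by positivity) h1
    rw [Real.log_pow, ← hℓ] at h2
    exact h2
  have hκ0 : 0 ≤ κ := by
    rw [hκ]
    positivity
  have hwd : 1 / ((L : ℝ) ^ d * (1 - w)) ≤ 1 / ℓ ^ m := one_div_le_one_div_of_le hℓm hwm
  have hKd : (1 + Real.log (1 / (1 - w))) / K ≤ (1 + d * ℓ) / ℓ ^ m := by
    apply div_le_div₀ (by linarith) (by linarith) hℓm hlogK
  have hκℓ : κ * ℓ ^ m ≤ ℓ ^ (3 * m₁ + 2) := by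
    have h1 : κ ≤ (Z : ℝ) ^ m₁ * ((1 + d * ℓ) / ℓ ^ m + 1 / ℓ ^ m) := by
      rw [hκ]
      exact mul_le_mul_of_nonneg_left (add_le_add hKd hwd) (by positivity)
    have h2 : (Z : ℝ) ^ m₁ * ((1 + d * ℓ) / ℓ ^ m + 1 / ℓ ^ m) * ℓ ^ m =
        (Z : ℝ) ^ m₁ * (2 + d * ℓ) := by field_simp; ring
    have h3 : 2 + (d : ℝ) * ℓ ≤ ℓ ^ 2 := by nlinarith
    calc κ * ℓ ^ m ≤ (Z : ℝ) ^ m₁ * ((1 + d * ℓ) / ℓ ^ m + 1 / ℓ ^ m) * ℓ ^ m :=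
          mul_le_mul_of_nonneg_right h1 hℓm.le
      _ = (Z : ℝ) ^ m₁ * (2 + d * ℓ) := h2
      _ ≤ ℓ ^ (3 * m₁) * ℓ ^ 2 := by
          have := hZm m₁
          gcongr
      _ = ℓ ^ (3 * m₁ + 2) := by rw [pow_add]
  have hr2 : ((2 * r + 1 : ℕ) : ℝ) ^ d ≤ 3 ^ d * ℓ ^ (3 * d * mm) := by
    have h1 : ((2 * r + 1 : ℕ) : ℝ) ≤ 3 * (Z : ℝ) ^ mm := by
      have h2 : 2 * r + 1 ≤ 3 * Z ^ mm := by rw [← hr]; omega
      exact_mod_cast h2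
    calc ((2 * r + 1 : ℕ) : ℝ) ^ d ≤ (3 * (Z : ℝ) ^ mm) ^ d := pow_le_pow_left₀ (by positivity) h1 d
      _ ≤ (3 * ℓ ^ (3 * mm)) ^ d := by
          have := hZm mm
          gcongr
      _ = 3 ^ d * ℓ ^ (3 * d * mm) := by
          rw [mul_pow, ← pow_mul]
          congr 2
          ring
  have hkey : ((2 * r + 1 : ℕ) : ℝ) ^ d * ((Z + 2) * κ) ≤ Real.exp (-1) := by
    have hZ2' : (Z : ℝ) + 2 ≤ 3 * ℓ ^ 3 := by
      have h0 : 1 ≤ ℓ ^ 3 := one_le_pow₀ hℓ1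
      linarith
    have h1 : ((2 * r + 1 : ℕ) : ℝ) ^ d * ((Z + 2) * κ) ≤
        3 ^ d * ℓ ^ (3 * d * mm) * ((3 * ℓ ^ 3) * κ) := by
      refine mul_le_mul hr2 (mul_le_mul_of_nonneg_right hZ2' hκ0) (by positivity)
        (by positivity)
    have h2 : 3 ^ d * ℓ ^ (3 * d * mm) * ((3 * ℓ ^ 3) * κ) * ℓ ≤ 3 * 3 ^ d := by
      have e2 : ℓ ^ (3 * d * mm + 3 + 1 + (3 * m₁ + 2)) ≤ ℓ ^ m :=
        pow_le_pow_right₀ hℓ1 (by omega)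
      have e3 : κ * ℓ ^ (3 * d * mm + 3 + 1) ≤ 1 := by
        have e4 : κ * ℓ ^ (3 * d * mm + 3 + 1) * ℓ ^ (3 * m₁ + 2) ≤ 1 * ℓ ^ (3 * m₁ + 2) := by
          rw [mul_assoc, ← pow_add, one_mul]
          exact (mul_le_mul_of_nonneg_left e2 hκ0).trans hκℓ
        exact le_of_mul_le_mul_right e4 (by positivity)
      have e1 : 3 ^ d * ℓ ^ (3 * d * mm) * ((3 * ℓ ^ 3) * κ) * ℓ =
          3 * 3 ^ d * (κ * ℓ ^ (3 * d * mm + 3 + 1)) := by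
        rw [pow_add, pow_add]
        ring
      rw [e1]
      have := mul_le_mul_of_nonneg_left e3 (by positivity : (0 : ℝ) ≤ 3 * 3 ^ d)
      linarith
    have h3 : Real.exp (-1) ≥ 1 / 3 := by
      rw [Real.exp_neg, ge_iff_le, one_div]
      refine inv_anti₀ (Real.exp_pos 1) ?_
      have := Real.exp_one_lt_d9
      linarith
    have h6 : 3 ^ d * ℓ ^ (3 * d * mm) * ((3 * ℓ ^ 3) * κ) ≤ 1 / 3 := by
      by_contra hcon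
      push Not at hcon
      have h7 : 1 / 3 * ℓ < 3 ^ d * ℓ ^ (3 * d * mm) * ((3 * ℓ ^ 3) * κ) * ℓ :=
        mul_lt_mul_of_pos_right hcon (by linarith)
      linarith
    linarith
  have hκZ : ((Z : ℝ) + 2) * κ ≤ 1 := by
    have h1 : 1 ≤ ((2 * r + 1 : ℕ) : ℝ) ^ d := one_le_pow₀ (by
      have : 1 ≤ 2 * r + 1 := by omega
      exact_mod_cast this)
    have h2 : Real.exp (-1) ≤ 1 := Real.exp_le_one_iff.2 (by norm_num)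
    have h3 : 0 ≤ ((Z : ℝ) + 2) * κ := by positivity
    have h4 := le_mul_of_one_le_left h3 h1
    linarith
  have hrL : (Z + 1) * (2 * r + 1) ^ d ≤ L ^ (2 * d) := by
    have hm0 : Z + 1 ≤ L := by omega
    have h1 : 2 * r + 1 ≤ L := by omega
    calc (Z + 1) * (2 * r + 1) ^ d ≤ L * L ^ d := Nat.mul_le_mul hm0 (Nat.pow_le_pow_left h1 d)
      _ = L ^ (d + 1) := by ring
      _ ≤ L ^ (2 * d) := Nat.pow_le_pow_right hLpos (by omega)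
  have hD1 : 1 ≤ C₁ * (1 + Nat.log 2 K) := Nat.mul_pos hC₁ (by omega)
  have hlog2 : ((Nat.log 2 K : ℕ) : ℝ) * Real.log 2 ≤ d * ℓ := by
    have h1 : (2 : ℝ) ^ (Nat.log 2 K) ≤ (L : ℝ) ^ d := by
      have h2 : 2 ^ (Nat.log 2 K) ≤ L ^ d := (Nat.pow_log_le_self 2 (by omega)).trans hKL
      exact_mod_cast h2
    have h2 := Real.log_le_log (by positivity) h1
    rw [Real.log_pow, Real.log_pow, ← hℓ] at h2
    exact h2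
  have hDX : ((C₁ * (1 + Nat.log 2 K) : ℕ) : ℝ) ≤ 2 * C₁ * (d * ℓ) := by
    have l2 := Real.log_two_gt_d9
    have h0 : (0 : ℝ) ≤ (Nat.log 2 K : ℕ) := Nat.cast_nonneg _
    have h1 : ((Nat.log 2 K : ℕ) : ℝ) * 0.69 ≤ d * ℓ := by
      refine le_trans ?_ hlog2
      exact mul_le_mul_of_nonneg_left (by linarith) h0
    have h2 : 1 + ((Nat.log 2 K : ℕ) : ℝ) ≤ 2 * (d * ℓ) := by linarith
    push_cast
    have h3 := mul_le_mul_of_nonneg_left h2 (by linarith : (0 : ℝ) ≤ C₁)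
    linarith
  have hDfin : 100 * ((p + 4) * (d * ℓ)) * ((C₁ * (1 + Nat.log 2 K) : ℕ) : ℝ) ≤ Z := by
    refine le_trans ?_ hZX
    have h1 := mul_le_mul_of_nonneg_left hDX
      (by positivity : (0 : ℝ) ≤ 100 * (((p : ℝ) + 4) * (d * ℓ)))
    refine h1.trans (le_of_eq ?_)
    ring
  refine ⟨hκZ, fail_pow (d := d) (p := p) (C₁ := C₁) (D := C₁ * (1 + Nat.log 2 K)) (L := L) (K := K)
    (Z := Z) (r := r) (κ := κ)
    (by omega) hC₁ hLpos ?_ hD1 ?_ (by rw [← hℓ]; exact hb2) hKL hrL hκ0 hkey⟩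
  · rw [← hℓ]
    exact hZX1
  · rw [← hℓ]
    exact hDfin

/-- CIP -/
theorem cip (hENP : S_ENP) : S_CIP := by
  intro d hd
  obtain ⟨C₁, m₁, hC₁, hB⟩ := Q295.PL.all_btt d hd
  obtain ⟨C₂, m₂, hC₂, hE⟩ := hENP d hd
  obtain ⟨mm, hmm⟩ : ∃ mm : ℕ, mm = m₁ + m₂ + 2 := ⟨_, rfl⟩
  obtain ⟨m, hmm1, hpar0⟩ := params_cip d C₁ C₂ m₁ mm hd hC₁ (by omega)
  refine ⟨m, fun p => ?_⟩
  obtain ⟨T, hpar⟩ := hpar0 p
  refine ⟨T, ?_⟩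
  intro L K _ hL3 hmK hKL hlog
  obtain ⟨Z, z1, z2, z3, z4, z5, z6, z7, hK1, z8⟩ := hpar L K hmK hKL hlog
  have w1 : Z ^ m₁ ≤ Z ^ mm := Nat.pow_le_pow_right (by omega) (by omega)
  have w2 : Z ^ m₂ + Z ≤ Z ^ mm := by
    have e1 : 1 ≤ Z ^ m₂ := Nat.one_le_pow _ _ (by omega)
    have e2 : Z ^ (m₂ + 2) ≤ Z ^ mm := Nat.pow_le_pow_right (by omega) (by omega)
    have e3 : Z ^ (m₂ + 2) = Z * (Z * Z ^ m₂) := by ring
    have e4 : Z ^ m₂ ≤ Z * Z ^ m₂ := Nat.le_mul_of_pos_left _ (by omega)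
    have e5 : Z ≤ Z * Z ^ m₂ := Nat.le_mul_of_pos_right _ (by omega)
    have e6 : 2 * (Z * Z ^ m₂) ≤ Z * (Z * Z ^ m₂) := Nat.mul_le_mul_right _ (by omega)
    omega
  obtain ⟨q1, hq1⟩ := hB Z (by omega) L K Z (Z ^ mm) Z ((Z - 1) / 2) le_rfl le_rfl (by omega)
    w1 (by omega) (by omega) hKL
  obtain ⟨q2, hq2⟩ := hE Z (by omega) L K Z (Z ^ mm - Z) Z (2 * ((Z - 1) / 2) + 1) le_rfl le_rfl
    (by omega) z3 (by omega) (by omega) (by omega)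
  refine ⟨q1 + q2 + 2, fun q hq σ hσ δ h1 h2 => ?_⟩
  obtain ⟨-, g2⟩ := Pool.Agent.Q154.LC.gdm d L σ q K Z (Z ^ mm) Z (2 * ((Z - 1) / 2))
  refine ⟨fun ω A => Gd σ q K Z (Z ^ mm) Z (2 * ((Z - 1) / 2)) ω A, g2, ?_, ?_⟩
  · intro ω A hG hInv w hw0 hw1
    have hEv : Ev σ q K Z (Z ^ mm - Z) Z (2 * ((Z - 1) / 2) + 1) ω A := by
      refine Pool.Agent.Q277.LC.ge d L z6 σ hσ q K Z (Z ^ mm - Z) Z (2 * ((Z - 1) / 2)) ω A
        (by omega) hK1 ?_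
      have : Z ^ mm - Z + Z = Z ^ mm := by omega
      rw [this]
      exact hG
    refine (hq2 q (by omega) σ hσ δ h1 h2 ω A hEv hInv w hw0 hw1).trans ?_
    have hZm : (Z : ℝ) ^ m₂ ≤ (Real.log L) ^ m := by
      refine le_trans ?_ z7
      have hZ1 : (1 : ℝ) ≤ Z := by
        have : 1 ≤ Z := by omega
        exact_mod_cast this
      exact pow_le_pow_right₀ hZ1 (by omega)
    have h3 : 0 ≤ 1 + (L : ℝ) ^ d / K := by positivity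
    exact mul_le_mul_of_nonneg_right hZm h3
  · intro wb hw0 hw1 hwb
    obtain ⟨z9, z10⟩ := z8 wb hw0 hw1 hwb _ rfl
    obtain ⟨b1, -⟩ := hq1 q (by omega) σ hσ δ h1 h2 wb hw0 hw1 _ rfl z9
    exact b1.trans z10

end Pool.Agent.H357.MS.Cip

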